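import Mathlib

/-!
Sums of few products of powers of polynomials in few variables, and an explicit hitting set.
-/

namespace Pool.Agent.Helper6

open MvPolynomial

/-- The polynomials `∑ i < k, ∏ j, g i j ^ e i j` over `ℚ` in the variables `x_0, …, x_{n-1}`, where
every `g i j` depends on at most `c` variables, the sum of the total degrees of all the `g i j` is
at most `L`, and the exponents `e i j` and the number of factors are arbitrary. -/
def SumProdLocal (n k c L : ℕ) : Set (MvPolynomial (Fin n) ℚ) :=
  {f | ∃ (m : ℕ) (g : Fin k → Fin m → MvPolynomial (Fin n) ℚ) (e : Fin k → Fin m → ℕ),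
    (∀ i j, (g i j).vars.card ≤ c) ∧ ∑ i, ∑ j, (g i j).totalDegree ≤ L ∧
      f = ∑ i, ∏ j, g i j ^ e i j}

/-- The points of `ℕ^n` obtained from a point `v ↦ ∑ i < c, y_i (v+1)^i` of a curve, with
`0 ≤ y_i ≤ L`, by changing at most `s` coordinates to arbitrary values in `0, …, Z`. -/
def curveBalls (n c L s Z : ℕ) : Finset (Fin n → ℕ) :=
  (Fintype.piFinset fun _ : Fin c => Finset.range (L + 1)).biUnion fun y =>
    ((Finset.univ : Finset (Finset (Fin n))).filter fun S => S.card ≤ s).biUnion fun S =>
      Fintype.piFinset fun v =>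
        if v ∈ S then Finset.range (Z + 1) else {∑ i : Fin c, y i * ((v : ℕ) + 1) ^ (i : ℕ)}

end Pool.Agent.Helper6
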