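import Pool.Agent.Helper6.Fanin.Wronskian

/-!
Restriction of power series to coordinate subspaces and the locality of generalised
Wronskians of products of functions of few variables.
-/

namespace Pool.Agent.Helper6

open MvPowerSeries

variable {K : Type*} [Field K] {n : ℕ}

/-- restriction to the coordinate subspace of the variables in `S` -/
noncomputable def rho (S : Finset (Fin n)) : MvPowerSeries (Fin n) K →+* MvPowerSeries (Fin n) K :=
  rescale (fun v => if v ∈ S then 1 else 0)

theorem coeff_rho (S : Finset (Fin n)) (f : MvPowerSeries (Fin n) K) (d : Fin n →₀ ℕ) :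
    coeff d (rho S f) = if d.support ⊆ S then coeff d f else 0 := by
  rw [rho, coeff_rescale]
  split_ifs with h
  · have : (d.prod fun s m => (if s ∈ S then (1 : K) else 0) ^ m) = 1 := by
      apply Finset.prod_eq_one
      intro s hs
      simp [h hs]
    rw [this, one_mul]
  · obtain ⟨s, hs, hsS⟩ := Finset.not_subset.mp h
    have : (d.prod fun s m => (if s ∈ S then (1 : K) else 0) ^ m) = 0 := by
      apply Finset.prod_eq_zero hs
      simp only [hsS, if_false]
      exact zero_pow (Finsupp.mem_support_iff.mp hs)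
    rw [this, zero_mul]

theorem rho_smul (S : Finset (Fin n)) (c : K) (f : MvPowerSeries (Fin n) K) :
    rho S (c • f) = c • rho S f := by
  ext d
  simp only [coeff_rho, coeff_smul]
  split_ifs <;> simp

theorem rho_rho (S T : Finset (Fin n)) (f : MvPowerSeries (Fin n) K) :
    rho S (rho T f) = rho (S ∩ T) f := by
  ext d
  simp only [coeff_rho, Finset.subset_inter_iff]
  split_ifs <;> simp_all

theorem rho_mono {S T : Finset (Fin n)} (h : S ⊆ T) {f : MvPowerSeries (Fin n) K}
    (hf : rho S f = f) : rho T f = f := by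
  rw [← hf, rho_rho, Finset.inter_eq_right.mpr h]

theorem support_add_single (d : Fin n →₀ ℕ) (v : Fin n) (S : Finset (Fin n)) :
    (d + Finsupp.single v 1).support ⊆ S ↔ d.support ⊆ S ∧ v ∈ S := by
  constructor
  · intro h
    constructor
    · intro i hi
      apply h
      simp only [Finsupp.mem_support_iff, Finsupp.coe_add, Pi.add_apply] at hi ⊢
      omega
    · apply h
      simp
  · rintro ⟨h, hv⟩ i hi
    by_cases hiv : i = v
    · rw [hiv]; exact hv
    · apply h
      simpa [Finsupp.single_eq_of_ne hiv] using hi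

theorem pderiv_rho_mem {S : Finset (Fin n)} {v : Fin n} (hv : v ∈ S)
    (f : MvPowerSeries (Fin n) K) : pderiv K v (rho S f) = rho S (pderiv K v f) := by
  ext d
  simp only [coeff_pderiv, coeff_rho, support_add_single, hv, and_true]
  split_ifs <;> simp

theorem pderiv_rho_not_mem {S : Finset (Fin n)} {v : Fin n} (hv : v ∉ S)
    (f : MvPowerSeries (Fin n) K) : pderiv K v (rho S f) = 0 := by
  ext d
  simp only [coeff_pderiv, coeff_rho, support_add_single, hv, and_false]
  simp

theorem Dw_rho {S : Finset (Fin n)} (w : List (Fin n)) (hw : ∀ v ∈ w, v ∈ S)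
    (f : MvPowerSeries (Fin n) K) : Dw w (rho S f) = rho S (Dw w f) := by
  induction w with
  | nil => rfl
  | cons v w ih =>
    rw [Dw_cons, Dw_cons, ih (fun u hu => hw u (List.mem_cons_of_mem _ hu)),
      pderiv_rho_mem (hw v List.mem_cons_self)]

theorem constantCoeff_rho (S : Finset (Fin n)) (f : MvPowerSeries (Fin n) K) :
    constantCoeff (rho S f) = constantCoeff f := by
  rw [← coeff_zero_eq_constantCoeff_apply, coeff_rho]
  simp

theorem rho_inv {S : Finset (Fin n)} {f : MvPowerSeries (Fin n) K} (h : constantCoeff f ≠ 0)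
    (hf : rho S f = f) : rho S f⁻¹ = f⁻¹ := by
  rw [MvPowerSeries.eq_inv_iff_mul_eq_one h]
  calc rho S f⁻¹ * f = rho S f⁻¹ * rho S f := by rw [hf]
    _ = rho S (f⁻¹ * f) := by rw [map_mul]
    _ = 1 := by rw [MvPowerSeries.inv_mul_cancel _ h, map_one]

/-- sums of power series each of which depends on at most `q` variables, among them `B` -/
def Fil (K : Type*) [Field K] {n : ℕ} (q : ℕ) (B : Finset (Fin n)) :
    Submodule K (MvPowerSeries (Fin n) K) :=
  Submodule.span K {h | ∃ U : Finset (Fin n), B ⊆ U ∧ U.card ≤ q ∧ rho U h = h}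

theorem mem_Fil {q : ℕ} {B U : Finset (Fin n)} {h : MvPowerSeries (Fin n) K} (h1 : B ⊆ U)
    (h2 : U.card ≤ q) (h3 : rho U h = h) : h ∈ Fil K q B :=
  Submodule.subset_span ⟨U, h1, h2, h3⟩

theorem Fil_mono {q q' : ℕ} (hq : q ≤ q') (B : Finset (Fin n)) : Fil K q B ≤ Fil K q' B := by
  apply Submodule.span_mono
  rintro h ⟨U, h1, h2, h3⟩
  exact ⟨U, h1, h2.trans hq, h3⟩

theorem one_mem_Fil : (1 : MvPowerSeries (Fin n) K) ∈ Fil K 0 (∅ : Finset (Fin n)) :=
  mem_Fil (U := ∅) (by simp) (by simp) (by simp)

theorem mul_mem_Fil {q q' : ℕ} {B B' : Finset (Fin n)} {f g : MvPowerSeries (Fin n) K}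
    (hf : f ∈ Fil K q B) (hg : g ∈ Fil K q' B') : f * g ∈ Fil K (q + q') (B ∪ B') := by
  classical
  unfold Fil at hf
  induction hf using Submodule.span_induction with
  | mem x hx =>
    unfold Fil at hg
    induction hg using Submodule.span_induction with
    | mem y hy =>
      obtain ⟨U, h1, h2, h3⟩ := hx
      obtain ⟨U', h1', h2', h3'⟩ := hy
      refine mem_Fil (U := U ∪ U') (Finset.union_subset_union h1 h1')
        ((Finset.card_union_le _ _).trans (by omega)) ?_
      rw [map_mul, rho_mono Finset.subset_union_left h3, rho_mono Finset.subset_union_right h3']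
    | zero => simp
    | add y z _ _ hy hz => rw [mul_add]; exact Submodule.add_mem _ hy hz
    | smul c y _ hy => rw [mul_smul_comm]; exact Submodule.smul_mem _ _ hy
  | zero => simp
  | add y z _ _ hy hz => rw [add_mul]; exact Submodule.add_mem _ hy hz
  | smul c y _ hy => rw [smul_mul_assoc]; exact Submodule.smul_mem _ _ hy

theorem pderiv_mem_Fil {q : ℕ} {B : Finset (Fin n)} (v : Fin n) {f : MvPowerSeries (Fin n) K}
    (hf : f ∈ Fil K q B) : pderiv K v f ∈ Fil K q (insert v B) := by
  classical
  unfold Fil at hf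
  induction hf using Submodule.span_induction with
  | mem x hx =>
    obtain ⟨U, h1, h2, h3⟩ := hx
    by_cases hv : v ∈ U
    · refine mem_Fil (U := U) (Finset.insert_subset hv h1) h2 ?_
      rw [← pderiv_rho_mem hv, h3]
    · rw [← h3, pderiv_rho_not_mem hv]
      exact Submodule.zero_mem _
  | zero => simp
  | add y z _ _ hy hz => rw [map_add]; exact Submodule.add_mem _ hy hz
  | smul c y _ hy => rw [(pderiv K v).map_smul]; exact Submodule.smul_mem _ _ hy

/-- a nonzero member of `Fil q B` stays nonzero on some coordinate subspace of dimension `≤ q` -/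
theorem exists_rho_ne_zero {q : ℕ} {B : Finset (Fin n)} {V : MvPowerSeries (Fin n) K}
    (hV : V ∈ Fil K q B) (h0 : V ≠ 0) :
    ∃ S : Finset (Fin n), B ⊆ S ∧ S.card ≤ q ∧ rho S V ≠ 0 := by
  obtain ⟨d, hd⟩ : ∃ d, coeff d V ≠ 0 := by
    by_contra! h
    exact h0 (MvPowerSeries.ext (by simpa using h))
  have : ∃ U : Finset (Fin n), B ⊆ U ∧ U.card ≤ q ∧ d.support ⊆ U := by
    by_contra! H
    apply hd
    unfold Fil at hV
    clear hd h0
    induction hV using Submodule.span_induction with
    | mem x hx =>
      obtain ⟨U, h1, h2, h3⟩ := hx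
      rw [← h3, coeff_rho, if_neg (H U h1 h2)]
    | zero => simp
    | add y z _ _ hy hz => rw [map_add, hy, hz, add_zero]
    | smul c y _ hy => rw [coeff_smul, hy, mul_zero]
  obtain ⟨U, h1, h2, h3⟩ := this
  refine ⟨U, h1, h2, fun h => hd ?_⟩
  have := congrArg (coeff d) h
  rwa [coeff_rho, if_pos h3, map_zero] at this

/-- the logarithmic derivatives of `T` depend on few variables -/
def LogLocal (c : ℕ) (T : MvPowerSeries (Fin n) K) : Prop :=
  ∀ v, ∃ l ∈ Fil K c ({v} : Finset (Fin n)), pderiv K v T = T * l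

theorem LogLocal.one (c : ℕ) : LogLocal c (1 : MvPowerSeries (Fin n) K) := fun v =>
  ⟨0, Submodule.zero_mem _, by simp⟩

theorem LogLocal.mul {c : ℕ} {T T' : MvPowerSeries (Fin n) K} (h : LogLocal c T)
    (h' : LogLocal c T') : LogLocal c (T * T') := by
  intro v
  obtain ⟨l, hl, e⟩ := h v
  obtain ⟨l', hl', e'⟩ := h' v
  refine ⟨l + l', Submodule.add_mem _ hl hl', ?_⟩
  rw [Derivation.leibniz, e, e', smul_eq_mul, smul_eq_mul]
  ring

theorem LogLocal.pow {c : ℕ} {T : MvPowerSeries (Fin n) K} (h : LogLocal c T) (e : ℕ) :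
    LogLocal c (T ^ e) := by
  induction e with
  | zero => rw [pow_zero]; exact LogLocal.one c
  | succ e ih => rw [pow_succ]; exact ih.mul h

theorem LogLocal.prod {c : ℕ} {ι : Type*} (s : Finset ι) (T : ι → MvPowerSeries (Fin n) K)
    (h : ∀ i ∈ s, LogLocal c (T i)) : LogLocal c (∏ i ∈ s, T i) :=
  Finset.prod_induction _ (LogLocal c) (fun _ _ => LogLocal.mul) (LogLocal.one c) h

theorem LogLocal.of_rho {c : ℕ} {U : Finset (Fin n)} (hU : U.card ≤ c)
    {g : MvPowerSeries (Fin n) K} (hg : rho U g = g) (h0 : constantCoeff g ≠ 0) :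
    LogLocal c g := by
  intro v
  by_cases hv : v ∈ U
  · refine ⟨g⁻¹ * pderiv K v g, mem_Fil (U := U) (by simpa using hv) hU ?_, ?_⟩
    · rw [map_mul, rho_inv h0 hg, ← pderiv_rho_mem hv, hg]
    · rw [← mul_assoc, MvPowerSeries.mul_inv_cancel _ h0, one_mul]
  · refine ⟨0, Submodule.zero_mem _, ?_⟩
    rw [mul_zero, ← hg, pderiv_rho_not_mem hv]

theorem LogLocal.Dw {c : ℕ} {T : MvPowerSeries (Fin n) K} (h : LogLocal c T)
    (w : List (Fin n)) : ∃ l ∈ Fil K (c * w.length) w.toFinset, Pool.Agent.Helper6.Dw w T = T * l := by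
  induction w with
  | nil => exact ⟨1, by simpa using one_mem_Fil, by simp⟩
  | cons v w ih =>
    obtain ⟨l, hl, e⟩ := ih
    obtain ⟨m, hm, e'⟩ := h v
    refine ⟨m * l + pderiv K v l, Submodule.add_mem _ ?_ ?_, ?_⟩
    · have := mul_mem_Fil hm hl
      have hc : c * (v :: w).length = c + c * w.length := by
        rw [List.length_cons]; ring
      rw [hc, List.toFinset_cons, Finset.insert_eq]
      exact this
    · have := pderiv_mem_Fil v hl
      rw [List.toFinset_cons]
      refine Fil_mono ?_ _ this
      rw [List.length_cons]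
      exact Nat.mul_le_mul_left _ (Nat.le_succ _)
    · rw [Dw_cons, e, Derivation.leibniz, e', smul_eq_mul, smul_eq_mul]
      ring

theorem prod_mem_Fil {ι : Type*} [DecidableEq ι] (s : Finset ι) (q : ι → ℕ) (B : ι → Finset (Fin n))
    (f : ι → MvPowerSeries (Fin n) K) (h : ∀ i ∈ s, f i ∈ Fil K (q i) (B i)) :
    (∏ i ∈ s, f i) ∈ Fil K (∑ i ∈ s, q i) (s.biUnion B) := by
  induction s using Finset.induction_on with
  | empty => simpa using one_mem_Fil
  | insert a s ha ih =>
    rw [Finset.prod_insert ha, Finset.sum_insert ha, Finset.biUnion_insert]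
    exact mul_mem_Fil (h a (Finset.mem_insert_self _ _))
      (ih fun i hi => h i (Finset.mem_insert_of_mem hi))

/-- **Locality.** Linear independence of products of functions of few variables survives
restriction to some coordinate subspace of small dimension. -/
theorem exists_linearIndependent_rho [CharZero K] {r c : ℕ} {T : Fin r → MvPowerSeries (Fin n) K}
    (hT : LinearIndependent K T) (hl : ∀ i, LogLocal c (T i))
    (h0 : ∀ i, constantCoeff (T i) ≠ 0) :
    ∃ S : Finset (Fin n), S.card ≤ c * (r * (r - 1) / 2) ∧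
      LinearIndependent K (fun i => rho S (T i)) := by
  classical
  obtain ⟨w, hw, hdet⟩ := exists_words hT
  choose h hF hE using fun i j => (hl i).Dw (w j)
  have hmat : (Matrix.of fun j i => Dw (w j) (T i)) =
      Matrix.of fun j i => T i * (Matrix.of fun j i => h i j) j i := by
    ext1 j i
    simp [hE i j]
  rw [hmat, Matrix.det_mul_row] at hdet
  have hdet' : (Matrix.of fun j i => h i j : Matrix (Fin r) (Fin r) _).det ≠ 0 := by
    intro hz; rw [hz, mul_zero] at hdet; exact hdet rfl
  have hmem : (Matrix.of fun j i => h i j : Matrix (Fin r) (Fin r) _).det ∈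
      Fil K (∑ j, c * (w j).length) (Finset.univ.biUnion fun j => (w j).toFinset) := by
    rw [Matrix.det_apply]
    apply Submodule.sum_mem
    intro σ _
    have hprod : (∏ i, (Matrix.of fun j i => h i j : Matrix (Fin r) (Fin r) _) (σ i) i) ∈
        Fil K (∑ j, c * (w j).length) (Finset.univ.biUnion fun j => (w j).toFinset) := by
      have h1 := prod_mem_Fil (K := K) Finset.univ (fun i => c * (w (σ i)).length)
        (fun i => (w (σ i)).toFinset) (fun i => h i (σ i)) (fun i _ => hF i (σ i))
      have h2 : ∑ i, c * (w (σ i)).length = ∑ j, c * (w j).length :=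
        Equiv.sum_comp σ (fun j => c * (w j).length)
      have h3 : (Finset.univ.biUnion fun i => (w (σ i)).toFinset) =
          Finset.univ.biUnion fun j => (w j).toFinset := by
        ext x
        simp only [Finset.mem_biUnion, Finset.mem_univ, true_and]
        constructor
        · rintro ⟨i, hi⟩; exact ⟨σ i, hi⟩
        · rintro ⟨j, hj⟩; exact ⟨σ.symm j, by simpa using hj⟩
      rw [h2, h3] at h1
      exact h1
    rcases Int.units_eq_one_or (Equiv.Perm.sign σ) with hs | hs
    · rw [hs, one_smul]; exact hprod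
    · rw [hs, Units.neg_smul, one_smul]; exact Submodule.neg_mem _ hprod
  obtain ⟨S, hS1, hS2, hS3⟩ := exists_rho_ne_zero hmem hdet'
  refine ⟨S, ?_, ?_⟩
  · refine hS2.trans ?_
    rw [← Finset.mul_sum]
    apply Nat.mul_le_mul_left
    calc ∑ j, (w j).length ≤ ∑ j : Fin r, (j : ℕ) := Finset.sum_le_sum fun j _ => hw j
      _ = ∑ j ∈ Finset.range r, j := Fin.sum_univ_eq_sum_range (fun j => j) r
      _ = r * (r - 1) / 2 := Finset.sum_range_id r
  · rw [Fintype.linearIndependent_iff]
    intro κ hκ
    by_contra! hne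
    obtain ⟨i0, hi0⟩ := hne
    have hD : (Matrix.of fun j i => Dw (w j) (rho S (T i)) :
        Matrix (Fin r) (Fin r) (MvPowerSeries (Fin n) K)).det ≠ 0 := by
      have e1 : (Matrix.of fun j i => Dw (w j) (rho S (T i)) :
        Matrix (Fin r) (Fin r) (MvPowerSeries (Fin n) K)) =
          (rho S).mapMatrix (Matrix.of fun j i => T i * (Matrix.of fun j i => h i j) j i) := by
        ext1 j i
        rw [Matrix.of_apply, Dw_rho]
        · simp [hE i j]
        · intro v hv
          apply hS1
          simp only [Finset.mem_biUnion, Finset.mem_univ, true_and, List.mem_toFinset]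
          exact ⟨j, hv⟩
      rw [e1, ← RingHom.map_det, Matrix.det_mul_row, map_mul, map_prod]
      refine mul_ne_zero ?_ hS3
      rw [Finset.prod_ne_zero_iff]
      intro i _ hz
      apply h0 i
      rw [← constantCoeff_rho S, hz, map_zero]
    apply hD
    have : IsDomain (MvPowerSeries (Fin n) K) := NoZeroDivisors.to_isDomain _
    apply Matrix.exists_mulVec_eq_zero_iff.mp
    refine ⟨fun i => C (κ i), ?_, ?_⟩
    · intro hz
      apply hi0
      have := congrFun hz i0
      simpa using this
    · ext1 j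
      have h1 := Dw_sum_smul Finset.univ (w j) κ (fun i => rho S (T i))
      rw [hκ] at h1
      have h2 : Dw (w j) (0 : MvPowerSeries (Fin n) K) = 0 := by
        have := Dw_sum_smul (K := K) (∅ : Finset (Fin r)) (w j) κ (fun i => rho S (T i))
        simpa using this
      rw [h2] at h1
      simp only [Matrix.mulVec, dotProduct, Matrix.of_apply, Pi.zero_apply]
      rw [h1]
      apply Finset.sum_congr rfl
      intro i _
      rw [smul_eq_C_mul, mul_comm]

end Pool.Agent.Helper6
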