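import Pool.Agent.Helper6.Fanin.Point
import Pool.Agent.Helper6.Fanin.Defs

/-!
The explicit hitting set for sums of few products of powers of polynomials in few variables.
-/

namespace Pool.Agent.Helper6

open MvPolynomial

theorem sum_pow_card_le (n s Z : ℕ) :
    ∑ S ∈ (Finset.univ : Finset (Finset (Fin n))).filter (fun S => S.card ≤ s), (Z + 1) ^ S.card ≤
      (n * (Z + 1) + 1) ^ s := by
  classical
  have h1 : (Finset.univ : Finset (Finset (Fin n))).filter (fun S => S.card ≤ s) =
      (Finset.range (s + 1)).biUnion (fun j => Finset.powersetCard j Finset.univ) := by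
    ext S
    simp only [Finset.mem_filter, Finset.mem_univ, true_and, Finset.mem_biUnion, Finset.mem_range,
      Finset.mem_powersetCard, Finset.subset_univ]
    constructor
    · intro h; exact ⟨S.card, by omega, rfl⟩
    · rintro ⟨j, hj, hS⟩; omega
  rw [h1, Finset.sum_biUnion]
  · have h2 : ∀ j ∈ Finset.range (s + 1),
        ∑ S ∈ Finset.powersetCard j (Finset.univ : Finset (Fin n)), (Z + 1) ^ S.card ≤
          (n * (Z + 1)) ^ j * s.choose j := by
      intro j hj
      rw [Finset.mem_range] at hj
      have h3 : ∑ S ∈ Finset.powersetCard j (Finset.univ : Finset (Fin n)), (Z + 1) ^ S.card =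
          n.choose j * (Z + 1) ^ j := by
        rw [Finset.sum_congr rfl (g := fun _ => (Z + 1) ^ j)]
        · rw [Finset.sum_const, Finset.card_powersetCard, Finset.card_univ, Fintype.card_fin,
            smul_eq_mul]
        · intro S hS
          rw [(Finset.mem_powersetCard.mp hS).2]
      rw [h3, mul_pow]
      calc n.choose j * (Z + 1) ^ j ≤ n ^ j * (Z + 1) ^ j :=
            Nat.mul_le_mul_right _ (Nat.choose_le_pow n j)
        _ = n ^ j * (Z + 1) ^ j * 1 := (mul_one _).symm
        _ ≤ n ^ j * (Z + 1) ^ j * s.choose j :=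
            Nat.mul_le_mul_left _ (Nat.choose_pos (by omega))
    refine (Finset.sum_le_sum h2).trans ?_
    rw [add_pow]
    apply le_of_eq
    apply Finset.sum_congr rfl
    intro j _
    simp
  · intro i _ j _ hij
    rw [Function.onFun, Finset.disjoint_left]
    intro S hS hS'
    rw [Finset.mem_powersetCard] at hS hS'
    exact hij (hS.2.symm.trans hS'.2)

theorem card_curveBalls (n c L s Z : ℕ) :
    (curveBalls n c L s Z).card ≤ (L + 1) ^ c * (n * (Z + 1) + 1) ^ s := by
  classical
  unfold curveBalls
  refine Finset.card_biUnion_le.trans ?_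
  have h1 : ∀ y ∈ (Fintype.piFinset fun _ : Fin c => Finset.range (L + 1)),
      (((Finset.univ : Finset (Finset (Fin n))).filter fun S => S.card ≤ s).biUnion fun S =>
      Fintype.piFinset fun v : Fin n =>
        if v ∈ S then Finset.range (Z + 1) else {∑ i : Fin c, y i * ((v : ℕ) + 1) ^ (i : ℕ)}).card ≤
      (n * (Z + 1) + 1) ^ s := by
    intro y _
    refine Finset.card_biUnion_le.trans (le_trans (Finset.sum_le_sum fun S _ => ?_)
      (sum_pow_card_le n s Z))
    rw [Fintype.card_piFinset]
    have : ∀ v : Fin n, (if v ∈ S then Finset.range (Z + 1) else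
        {∑ i : Fin c, y i * ((v : ℕ) + 1) ^ (i : ℕ)}).card = if v ∈ S then Z + 1 else 1 := by
      intro v
      split_ifs <;> simp
    simp_rw [this]
    rw [Finset.prod_ite_mem, Finset.univ_inter, Finset.prod_const]
  refine (Finset.sum_le_sum h1).trans ?_
  rw [Finset.sum_const, Fintype.card_piFinset, smul_eq_mul]
  simp

theorem hit_curveBalls (n k c L : ℕ) (f : MvPolynomial (Fin n) ℚ) (hf : f ∈ SumProdLocal n k c L)
    (hf0 : f ≠ 0) : ∃ x ∈ curveBalls n c L (c * (k * (k - 1) / 2)) (2 ^ (k + 1) * L + k),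
      eval (fun v => (x v : ℚ)) f ≠ 0 := by
  classical
  obtain ⟨m, g, e, hv, hL, rfl⟩ := hf
  -- remove the zero factors
  let g' : Fin k → Fin m → MvPolynomial (Fin n) ℚ := fun i j => if g i j = 0 then 1 else g i j
  let κ : Fin k → ℚ := fun i => if ∃ j, g i j = 0 ∧ e i j ≠ 0 then 0 else 1
  have hg' : ∀ i j, g' i j ≠ 0 := by
    intro i j
    simp only [g']
    split_ifs with h
    · exact one_ne_zero
    · exact h
  have hdeg : ∀ i j, (g' i j).totalDegree ≤ (g i j).totalDegree := by
    intro i j
    simp only [g']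
    split_ifs with h
    · simp
    · exact le_rfl
  have hv' : ∀ i j, (g' i j).vars.card ≤ c := by
    intro i j
    simp only [g']
    split_ifs with h
    · simp
    · exact hv i j
  have hL' : ∑ i, ∑ j, (g' i j).totalDegree ≤ L :=
    (Finset.sum_le_sum fun i _ => Finset.sum_le_sum fun j _ => hdeg i j).trans hL
  have hterm : ∀ i, ∏ j, g i j ^ e i j = C (κ i) * ∏ j, g' i j ^ e i j := by
    intro i
    simp only [κ]
    split_ifs with h
    · obtain ⟨j, h1, h2⟩ := h
      rw [C_0, zero_mul, Finset.prod_eq_zero (Finset.mem_univ j)]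
      rw [h1, zero_pow h2]
    · rw [C_1, one_mul]
      apply Finset.prod_congr rfl
      intro j _
      simp only [g']
      split_ifs with h1
      · have : e i j = 0 := by
          by_contra h2
          exact h ⟨j, h1, h2⟩
        rw [this, pow_zero, pow_zero]
      · rfl
  have hsum : (∑ i, ∏ j, g i j ^ e i j) = ∑ i, C (κ i) * ∏ j, g' i j ^ e i j :=
    Finset.sum_congr rfl fun i _ => hterm i
  rw [hsum] at hf0 ⊢
  obtain ⟨y, hy, hya⟩ := exists_base g' hg' hv' hL'
  obtain ⟨S, hS, x, hx, hx0⟩ := local_point κ g' e hv' _ hya hf0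
  obtain ⟨x', h1, h2, h3⟩ := move_all κ g' e hL' S x hx0
  choose! z hz hz' using h2
  let w : Fin n → ℕ := fun v => if v ∈ S then z v else ∑ i : Fin c, y i * ((v : ℕ) + 1) ^ (i : ℕ)
  have hw : (fun v => (w v : ℚ)) = x' := by
    ext v
    simp only [w]
    split_ifs with hvS
    · exact (hz' v hvS).symm
    · rw [h1 v hvS, hx v hvS]
      simp [crv]
  refine ⟨w, ?_, by rw [hw]; exact h3⟩
  unfold curveBalls
  rw [Finset.mem_biUnion]
  refine ⟨y, ?_, ?_⟩
  · rw [Fintype.mem_piFinset]
    exact hy
  · rw [Finset.mem_biUnion]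
    refine ⟨S, by simpa using hS, ?_⟩
    rw [Fintype.mem_piFinset]
    intro v
    simp only [w]
    split_ifs with hvS
    · exact hz v hvS
    · simp

end Pool.Agent.Helper6
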