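import Mathlib

/-!
Real zeros of sums of products of powers of polynomials: a bound independent of the exponents.
-/

namespace Pool.Agent.Helper6

open Polynomial

/-- the logarithmic derivative of `T` has denominator `g` and numerator of degree `≤ L` -/
def LogPole (g : ℝ[X]) (L : ℕ) (T : ℝ[X]) : Prop :=
  ∃ A : ℝ[X], A.natDegree ≤ L ∧ g * derivative T = T * A

theorem LogPole.one (g : ℝ[X]) (L : ℕ) : LogPole g L 1 := ⟨0, by simp, by simp⟩

theorem LogPole.mul {g : ℝ[X]} {L : ℕ} {T T' : ℝ[X]} (h : LogPole g L T) (h' : LogPole g L T') :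
    LogPole g L (T * T') := by
  obtain ⟨A, hA, e⟩ := h
  obtain ⟨A', hA', e'⟩ := h'
  refine ⟨A + A', (natDegree_add_le _ _).trans (max_le hA hA'), ?_⟩
  rw [derivative_mul, mul_add]
  linear_combination T' * e + T * e'

theorem LogPole.pow {g : ℝ[X]} {L : ℕ} {T : ℝ[X]} (h : LogPole g L T) (e : ℕ) :
    LogPole g L (T ^ e) := by
  induction e with
  | zero => rw [pow_zero]; exact LogPole.one g L
  | succ e ih => rw [pow_succ]; exact ih.mul h

theorem LogPole.prod {g : ℝ[X]} {L : ℕ} {ι : Type*} (s : Finset ι) (T : ι → ℝ[X])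
    (h : ∀ i ∈ s, LogPole g L (T i)) : LogPole g L (∏ i ∈ s, T i) :=
  Finset.prod_induction _ (LogPole g L) (fun _ _ => LogPole.mul) (LogPole.one g L) h

theorem LogPole.of_dvd {g : ℝ[X]} {L : ℕ} (hg : g ≠ 0) (hL : g.natDegree ≤ L) {T : ℝ[X]}
    (h : T ∣ g) : LogPole g L T := by
  obtain ⟨u, rfl⟩ := h
  refine ⟨u * derivative T, ?_, by ring⟩
  have hT : T ≠ 0 := left_ne_zero_of_mul hg
  have hu : u ≠ 0 := right_ne_zero_of_mul hg
  rw [natDegree_mul hT hu] at hL
  calc (u * derivative T).natDegree ≤ u.natDegree + (derivative T).natDegree := natDegree_mul_le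
    _ ≤ u.natDegree + T.natDegree := by
        have := natDegree_derivative_le T
        omega
    _ ≤ L := by omega

theorem eval_ne_zero_of_pole {T S : ℝ[X]} {t : ℝ} (h : T ∣ S) (hS : S.eval t ≠ 0) :
    T.eval t ≠ 0 := by
  obtain ⟨u, rfl⟩ := h
  rw [eval_mul] at hS
  exact left_ne_zero_of_mul hS

/-- the Rolle step -/
theorem rolle_step {F H Q R : ℝ[X]} {t u : ℝ} (htu : t < u)
    (hF : F.eval t = 0) (hF' : F.eval u = 0) (hH : ∀ x ∈ Set.Icc t u, H.eval x ≠ 0)
    (hR : ∀ x ∈ Set.Icc t u, R.eval x ≠ 0) {g : ℝ[X]}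
    (hQ : g * (derivative F * H - F * derivative H) = R * Q) :
    ∃ z, t < z ∧ z < u ∧ Q.eval z = 0 := by
  have h1 : ContinuousOn (fun x => F.eval x / H.eval x) (Set.Icc t u) :=
    ContinuousOn.div F.continuousOn H.continuousOn hH
  obtain ⟨z, hz, hz'⟩ := exists_hasDerivAt_eq_zero (f := fun x => F.eval x / H.eval x)
    (f' := fun x => (derivative F).eval x * H.eval x / (H.eval x)^2
      - F.eval x * (derivative H).eval x / (H.eval x)^2) htu h1 (by simp [hF, hF'])
    (by
      intro x hx
      have hx' := hH x (Set.Ioo_subset_Icc_self hx)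
      have := (F.hasDerivAt x).div (H.hasDerivAt x) hx'
      rw [sub_div] at this
      exact this)
  refine ⟨z, hz.1, hz.2, ?_⟩
  have hz2 := hH z (Set.Ioo_subset_Icc_self hz)
  have hz3 : (derivative F * H - F * derivative H).eval z = 0 := by
    rw [eval_sub, eval_mul, eval_mul]
    field_simp at hz'
    linarith
  have h2 := congrArg (eval z) hQ
  rw [eval_mul, hz3, mul_zero, eval_mul] at h2
  have h3 := hR z (Set.Ioo_subset_Icc_self hz)
  rcases mul_eq_zero.mp h2.symm with h4 | h4
  · exact absurd h4 h3
  · exact h4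

theorem root_of_wronskian_zero {F H : ℝ[X]} (hF0 : F ≠ 0) (hH0 : H ≠ 0) {t : ℝ}
    (hF : F.eval t = 0) (h : derivative F * H = F * derivative H) : H.eval t = 0 := by
  by_contra hH
  have hm : 1 ≤ F.rootMultiplicity t := (rootMultiplicity_pos hF0).mpr hF
  have h1 := derivative_rootMultiplicity_of_root (show F.IsRoot t from hF)
  have hFd : derivative F ≠ 0 := by
    intro h0
    have := derivative_eq_zero.mp h0
    rw [eq_C_of_natDegree_eq_zero this] at hF hF0
    simp at hF
    simp [hF] at hF0
  have h2 : (derivative F * H).rootMultiplicity t = F.rootMultiplicity t - 1 := by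
    rw [rootMultiplicity_mul (mul_ne_zero hFd hH0), h1]
    have : H.rootMultiplicity t = 0 := rootMultiplicity_eq_zero (by simpa [IsRoot] using hH)
    omega
  have h3 : derivative H ≠ 0 := by
    intro h0
    rw [h0, mul_zero] at h
    exact mul_ne_zero hFd hH0 h
  rw [h, rootMultiplicity_mul (mul_ne_zero hF0 h3)] at h2
  omega

theorem roots_bound {ι : Type*} {g : ℝ[X]} (hg : g ≠ 0) {L : ℕ} (hL : g.natDegree ≤ L)
    {G : ι → ℝ[X]} (hG0 : ∀ i t, g.eval t ≠ 0 → (G i).eval t ≠ 0)
    (hGA : ∀ i, LogPole g L (G i)) (k : ℕ) :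
    ∀ (I : Finset ι) (P : ι → ℝ[X]) (δ : ℕ), I.card ≤ k + 1 → (∀ i ∈ I, (P i).natDegree ≤ δ) →
      (∑ i ∈ I, P i * G i) ≠ 0 →
      (∑ i ∈ I, P i * G i).roots.toFinset.card ≤ (3 * 2 ^ k - 2) * (δ + L) + k := by
  classical
  induction k with
  | zero =>
    intro I P δ hI hP hF
    have hI1 : I.card = 1 := by
      rcases Nat.lt_or_ge I.card 1 with h | h
      · have : I = ∅ := Finset.card_eq_zero.mp (by omega)
        rw [this] at hF; simp at hF
      · omega
    obtain ⟨i0, rfl⟩ := Finset.card_eq_one.mp hI1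
    rw [Finset.sum_singleton] at hF ⊢
    have hP0 : P i0 ≠ 0 := left_ne_zero_of_mul hF
    have hPg : P i0 * g ≠ 0 := mul_ne_zero hP0 hg
    have hsub : (P i0 * G i0).roots.toFinset ⊆ (P i0 * g).roots.toFinset := by
      intro t ht
      rw [Multiset.mem_toFinset, mem_roots hF, IsRoot, eval_mul] at ht
      rw [Multiset.mem_toFinset, mem_roots hPg, IsRoot, eval_mul]
      by_contra h
      rcases mul_eq_zero.mp ht with h1 | h1
      · exact h (by rw [h1, zero_mul])
      · exact hG0 i0 t (right_ne_zero_of_mul h) h1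
    calc _ ≤ _ := Finset.card_le_card hsub
      _ ≤ Multiset.card (P i0 * g).roots := Multiset.toFinset_card_le _
      _ ≤ (P i0 * g).natDegree := card_roots' _
      _ ≤ (P i0).natDegree + g.natDegree := natDegree_mul_le
      _ ≤ δ + L := Nat.add_le_add (hP i0 (by simp)) hL
      _ = _ := by norm_num
  | succ k ih =>
    intro I P δ hI hP hF
    obtain ⟨i0, hi0, hne⟩ := Finset.exists_ne_zero_of_sum_ne_zero hF
    have hP0 : P i0 ≠ 0 := left_ne_zero_of_mul hne
    have hG00 : G i0 ≠ 0 := right_ne_zero_of_mul hne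
    have hPg : P i0 * g ≠ 0 := mul_ne_zero hP0 hg
    set B := (P i0 * g).roots.toFinset with hB
    have hBcard : B.card ≤ δ + L := by
      calc _ ≤ Multiset.card (P i0 * g).roots := Multiset.toFinset_card_le _
        _ ≤ (P i0 * g).natDegree := card_roots' _
        _ ≤ (P i0).natDegree + g.natDegree := natDegree_mul_le
        _ ≤ δ + L := Nat.add_le_add (hP i0 hi0) hL
    have hnB : ∀ t, t ∉ B → (P i0).eval t ≠ 0 ∧ g.eval t ≠ 0 := by
      intro t ht
      rw [hB, Multiset.mem_toFinset, mem_roots hPg, IsRoot, eval_mul] at ht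
      exact ⟨left_ne_zero_of_mul ht, right_ne_zero_of_mul ht⟩
    choose A hA hAe using hGA
    set F := ∑ i ∈ I, P i * G i with hFdef
    set H := P i0 * G i0 with hH
    let P' : ι → ℝ[X] := fun i =>
      (derivative (P i) * g + P i * A i) * P i0 - P i * (derivative (P i0) * g + P i0 * A i0)
    have hP'deg : ∀ i ∈ I.erase i0, (P' i).natDegree ≤ 2 * δ + L := by
      intro i hi
      have hi' := hP i (Finset.mem_of_mem_erase hi)
      have hi0' := hP i0 hi0
      have key : ∀ (p a : ℝ[X]), p.natDegree ≤ δ → a.natDegree ≤ L →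
          (derivative p * g + p * a).natDegree ≤ δ + L := by
        intro p a hp ha
        refine (natDegree_add_le _ _).trans (max_le ?_ ?_)
        · refine natDegree_mul_le.trans (Nat.add_le_add ?_ hL)
          exact (natDegree_derivative_le p).trans ((Nat.sub_le _ _).trans hp)
        · exact natDegree_mul_le.trans (Nat.add_le_add hp ha)
      refine (natDegree_sub_le _ _).trans (max_le ?_ ?_)
      · refine natDegree_mul_le.trans ?_
        have := key (P i) (A i) hi' (hA i)
        omega
      · refine natDegree_mul_le.trans ?_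
        have := key (P i0) (A i0) hi0' (hA i0)
        omega
    set Q := ∑ i ∈ I.erase i0, P' i * G i with hQ
    have hQe : g * (derivative F * H - F * derivative H) = G i0 * Q := by
      have e0 : derivative F * H - F * derivative H =
          ∑ i ∈ I.erase i0, (derivative (P i * G i) * H - P i * G i * derivative H) := by
        rw [hFdef, derivative_sum, Finset.sum_mul, Finset.sum_mul, ← Finset.sum_sub_distrib,
          ← Finset.add_sum_erase _ _ hi0, hH]
        ring
      rw [e0, Finset.mul_sum, hQ, Finset.mul_sum]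
      apply Finset.sum_congr rfl
      intro i _
      rw [hH, derivative_mul, derivative_mul]
      simp only [P']
      linear_combination (P i * P i0 * G i0) * hAe i - (P i * P i0 * G i) * hAe i0
    by_cases hQ0 : Q = 0
    · have hW : derivative F * H = F * derivative H := by
        rw [hQ0, mul_zero] at hQe
        exact sub_eq_zero.mp ((mul_eq_zero.mp hQe).resolve_left hg)
      have hsub : F.roots.toFinset ⊆ B := by
        intro t ht
        rw [Multiset.mem_toFinset, mem_roots hF] at ht
        by_contra htB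
        obtain ⟨h1, h2⟩ := hnB t htB
        have h3 := root_of_wronskian_zero hF hne ht hW
        rw [hH, eval_mul] at h3
        rcases mul_eq_zero.mp h3 with h4 | h4
        · exact h1 h4
        · exact hG0 i0 t h2 h4
      calc _ ≤ _ := Finset.card_le_card hsub
        _ ≤ δ + L := hBcard
        _ = 1 * (δ + L) := (one_mul _).symm
        _ ≤ (3 * 2 ^ (k + 1) - 2) * (δ + L) := by
            apply Nat.mul_le_mul_right
            have : 1 ≤ 2 ^ (k + 1) := Nat.one_le_two_pow
            omega
        _ ≤ _ := Nat.le_add_right _ _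
    · have hIH := ih (I.erase i0) P' (2 * δ + L) (by rw [Finset.card_erase_of_mem hi0]; omega)
        hP'deg hQ0
      rw [← hQ] at hIH
      have hcard : (F.roots.toFinset \ B).card ≤ (B ∪ Q.roots.toFinset).card + 1 := by
        apply Finset.card_le_of_interleaved
        intro x hx y hy hxy hno
        rw [Finset.mem_sdiff, Multiset.mem_toFinset, mem_roots hF] at hx hy
        by_cases hb : ∃ b ∈ B, x < b ∧ b < y
        · obtain ⟨b, hb1, hb2, hb3⟩ := hb
          exact ⟨b, Finset.mem_union_left _ hb1, hb2, hb3⟩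
        · push Not at hb
          have hIcc : ∀ t ∈ Set.Icc x y, t ∉ B := by
            intro t ht htB
            rcases eq_or_lt_of_le ht.1 with h1 | h1
            · exact hx.2 (h1 ▸ htB)
            · rcases eq_or_lt_of_le ht.2 with h2 | h2
              · exact hy.2 (h2 ▸ htB)
              · exact absurd h2 (not_lt.mpr (hb t htB h1))
          obtain ⟨z, hz1, hz2, hz3⟩ := rolle_step hxy hx.1 hy.1
            (fun t ht => by
              rw [hH, eval_mul]
              obtain ⟨h1, h2⟩ := hnB t (hIcc t ht)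
              exact mul_ne_zero h1 (hG0 i0 t h2))
            (fun t ht => hG0 i0 t (hnB t (hIcc t ht)).2) hQe
          refine ⟨z, Finset.mem_union_right _ ?_, hz1, hz2⟩
          rw [Multiset.mem_toFinset, mem_roots hQ0]
          exact hz3
      have h5 : F.roots.toFinset.card ≤ (F.roots.toFinset \ B).card + B.card := by
        have := Finset.card_le_card (show F.roots.toFinset ⊆ (F.roots.toFinset \ B) ∪ B by
          intro t ht
          by_cases h : t ∈ B
          · exact Finset.mem_union_right _ h
          · exact Finset.mem_union_left _ (Finset.mem_sdiff.mpr ⟨ht, h⟩))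
        exact this.trans (Finset.card_union_le _ _)
      have h6 := Finset.card_union_le B Q.roots.toFinset
      have h7 : (3 * 2 ^ k - 2) * (2 * δ + L + L) = (6 * 2 ^ k - 4) * (δ + L) := by
        have : 2 * δ + L + L = 2 * (δ + L) := by ring
        rw [this, ← mul_assoc]
        congr 1
        omega
      rw [h7] at hIH
      have h8 : (3 * 2 ^ (k + 1) - 2) * (δ + L) = (6 * 2 ^ k - 4) * (δ + L) + 2 * (δ + L) := by
        rw [← add_mul]
        congr 1
        have : 1 ≤ 2 ^ k := Nat.one_le_two_pow
        rw [pow_succ]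
        omega
      rw [h8]
      omega

/-- a bound, independent of the exponents, for the number of real zeros of a sum of `k + 1`
products of powers -/
theorem real_roots_bound {k m L : ℕ} (κ : Fin (k + 1) → ℝ) (g : Fin (k + 1) → Fin m → ℝ[X])
    (e : Fin (k + 1) → Fin m → ℕ) (hL : ∑ i, ∑ j, (g i j).natDegree ≤ L)
    (hF : (∑ i, C (κ i) * ∏ j, g i j ^ e i j) ≠ 0) :
    (∑ i, C (κ i) * ∏ j, g i j ^ e i j).roots.toFinset.card ≤ (3 * 2 ^ k - 2) * L + k := by
  classical
  let g' : Fin (k + 1) → Fin m → ℝ[X] := fun i j => if g i j = 0 then 1 else g i j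
  let P : Fin (k + 1) → ℝ[X] := fun i => if ∃ j, g i j = 0 ∧ e i j ≠ 0 then 0 else C (κ i)
  have hg' : ∀ i j, g' i j ≠ 0 := by
    intro i j
    simp only [g']
    split_ifs with h
    · exact one_ne_zero
    · exact h
  have hdeg : ∀ i j, (g' i j).natDegree ≤ (g i j).natDegree := by
    intro i j
    simp only [g']
    split_ifs with h
    · simp
    · exact le_rfl
  have hterm : ∀ i, C (κ i) * ∏ j, g i j ^ e i j = P i * ∏ j, g' i j ^ e i j := by
    intro i
    simp only [P]
    split_ifs with h
    · obtain ⟨j, h1, h2⟩ := h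
      rw [zero_mul, Finset.prod_eq_zero (Finset.mem_univ j), mul_zero]
      rw [h1, zero_pow h2]
    · congr 1
      apply Finset.prod_congr rfl
      intro j _
      simp only [g']
      split_ifs with h1
      · have : e i j = 0 := by
          by_contra h2
          exact h ⟨j, h1, h2⟩
        rw [this, pow_zero, pow_zero]
      · rfl
  have hsum : (∑ i, C (κ i) * ∏ j, g i j ^ e i j) = ∑ i, P i * ∏ j, g' i j ^ e i j :=
    Finset.sum_congr rfl fun i _ => hterm i
  rw [hsum] at hF ⊢
  set G := ∏ i, ∏ j, g' i j with hG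
  have hG0 : G ≠ 0 := by
    rw [hG, Finset.prod_ne_zero_iff]
    intro i _
    rw [Finset.prod_ne_zero_iff]
    intro j _
    exact hg' i j
  have hGdeg : G.natDegree ≤ L := by
    refine le_trans ?_ hL
    rw [hG]
    refine (natDegree_prod_le _ _).trans (Finset.sum_le_sum fun i _ => ?_)
    refine (natDegree_prod_le _ _).trans (Finset.sum_le_sum fun j _ => hdeg i j)
  have hdvd : ∀ i j, g' i j ∣ G := by
    intro i j
    exact (Finset.dvd_prod_of_mem (g' i) (Finset.mem_univ j)).trans
      (Finset.dvd_prod_of_mem (fun i => ∏ j, g' i j) (Finset.mem_univ i))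
  have := roots_bound hG0 hGdeg (G := fun i => ∏ j, g' i j ^ e i j)
    (fun i t ht => by
      rw [eval_prod, Finset.prod_ne_zero_iff]
      intro j _
      rw [eval_pow]
      exact pow_ne_zero _ (eval_ne_zero_of_pole (hdvd i j) ht))
    (fun i => LogPole.prod _ _ fun j _ => (LogPole.of_dvd hG0 hGdeg (hdvd i j)).pow _)
    k Finset.univ P 0 (by simp) (fun i _ => by
      simp only [P]
      split_ifs <;> simp) hF
  simpa using this

/-- the rational version: among many consecutive integers one is not a zero -/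
theorem exists_nat_ne_zero {k m L : ℕ} (κ : Fin k → ℚ) (g : Fin k → Fin m → ℚ[X])
    (e : Fin k → Fin m → ℕ) (hL : ∑ i, ∑ j, (g i j).natDegree ≤ L)
    (hF : (∑ i, C (κ i) * ∏ j, g i j ^ e i j) ≠ 0) :
    ∃ z ∈ Finset.range (2 ^ (k + 1) * L + k + 1), (∑ i, C (κ i) * ∏ j, g i j ^ e i j).eval (z : ℚ) ≠ 0 := by
  classical
  cases k with
  | zero => simp at hF
  | succ k =>
    by_contra! H
    let φ : ℚ[X] →+* ℝ[X] := mapRingHom (algebraMap ℚ ℝ)
    have hφ : φ (∑ i, C (κ i) * ∏ j, g i j ^ e i j) =
        ∑ i, C (algebraMap ℚ ℝ (κ i)) * ∏ j, (φ (g i j)) ^ e i j := by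
      rw [map_sum]
      apply Finset.sum_congr rfl
      intro i _
      rw [map_mul, map_prod]
      congr 1
      · simp [φ]
      · apply Finset.prod_congr rfl
        intro j _
        rw [map_pow]
    have hF' : φ (∑ i, C (κ i) * ∏ j, g i j ^ e i j) ≠ 0 := by
      intro h0
      apply hF
      exact (Polynomial.map_eq_zero_iff (algebraMap ℚ ℝ).injective).mp h0
    have hb := real_roots_bound (L := L) (fun i => algebraMap ℚ ℝ (κ i))
      (fun i j => φ (g i j)) e (by
        refine le_trans ?_ hL
        apply Finset.sum_le_sum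
        intro i _
        apply Finset.sum_le_sum
        intro j _
        exact natDegree_map_le) (by rw [← hφ]; exact hF')
    rw [← hφ] at hb
    have hsub : (Finset.range (2 ^ (k + 1 + 1) * L + (k + 1) + 1)).image (fun z : ℕ => (z : ℝ)) ⊆
        (φ (∑ i, C (κ i) * ∏ j, g i j ^ e i j)).roots.toFinset := by
      intro x hx
      rw [Finset.mem_image] at hx
      obtain ⟨z, hz, rfl⟩ := hx
      rw [Multiset.mem_toFinset, mem_roots hF', IsRoot]
      have h1 := H z hz
      have h2 : (φ (∑ i, C (κ i) * ∏ j, g i j ^ e i j)).eval ((algebraMap ℚ ℝ) (z : ℚ)) =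
          algebraMap ℚ ℝ ((∑ i, C (κ i) * ∏ j, g i j ^ e i j).eval (z : ℚ)) := by
        simp only [φ, coe_mapRingHom]
        rw [eval_map, eval₂_at_apply]
      rw [h1, map_zero] at h2
      simpa using h2
    have h3 := Finset.card_le_card hsub
    rw [Finset.card_image_of_injective _ Nat.cast_injective, Finset.card_range] at h3
    have h4 : (3 * 2 ^ k - 2) * L ≤ 2 ^ (k + 1 + 1) * L := by
      apply Nat.mul_le_mul_right
      rw [pow_succ, pow_succ]
      omega
    omega

end Pool.Agent.Helper6
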