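import Pool.Agent.Helper6.Fanin.Local
import Pool.Agent.Helper6.Fanin.RealZeros

/-!
From power series back to polynomials: the hitting set.
-/

namespace Pool.Agent.Helper6

open MvPolynomial

section LocalPoint

variable {K : Type*} [Field K] {n : ℕ}

/-- translation by `a` -/
noncomputable def shift (a : Fin n → K) : MvPolynomial (Fin n) K →+* MvPolynomial (Fin n) K :=
  eval₂Hom C (fun v => X v + C (a v))

/-- restriction of polynomials to a coordinate subspace -/
noncomputable def rhoP (S : Finset (Fin n)) : MvPolynomial (Fin n) K →+* MvPolynomial (Fin n) K :=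
  eval₂Hom C (fun v => if v ∈ S then X v else 0)

theorem eval_shift (a y : Fin n → K) (p : MvPolynomial (Fin n) K) :
    eval y (shift a p) = eval (fun v => y v + a v) p := by
  have : (eval y).comp (shift a) = eval (fun v => y v + a v) := by
    apply MvPolynomial.ringHom_ext
    · intro r; simp [shift]
    · intro i; simp [shift]
  rw [← this]; rfl

theorem eval_rhoP (S : Finset (Fin n)) (y : Fin n → K) (p : MvPolynomial (Fin n) K) :
    eval y (rhoP S p) = eval (fun v => if v ∈ S then y v else 0) p := by
  have : (eval y).comp (rhoP S) = eval (fun v => if v ∈ S then y v else 0) := by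
    apply MvPolynomial.ringHom_ext
    · intro r; simp [rhoP]
    · intro i
      simp only [rhoP, RingHom.comp_apply, eval₂Hom_X', eval_X]
      split_ifs <;> simp
  rw [← this]; rfl

theorem rho_X (S : Finset (Fin n)) (v : Fin n) :
    rho S (MvPowerSeries.X v : MvPowerSeries (Fin n) K) = if v ∈ S then MvPowerSeries.X v else 0 := by
  classical
  ext d
  rw [coeff_rho]
  by_cases hv : v ∈ S
  · rw [if_pos hv]
    by_cases hd : d = Finsupp.single v 1
    · subst hd
      have : (Finsupp.single v 1 : Fin n →₀ ℕ).support ⊆ S := by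
        intro i hi
        rw [Finsupp.mem_support_iff] at hi
        by_cases h : i = v
        · rw [h]; exact hv
        · exact absurd (Finsupp.single_eq_of_ne h) hi
      rw [if_pos this]
    · rw [MvPowerSeries.coeff_X, if_neg hd, ite_self]
  · rw [if_neg hv]
    by_cases hd : d = Finsupp.single v 1
    · subst hd
      have : ¬ (Finsupp.single v 1 : Fin n →₀ ℕ).support ⊆ S := by
        intro h
        exact hv (h (by simp))
      rw [if_neg this, map_zero]
    · rw [MvPowerSeries.coeff_X, if_neg hd, ite_self, map_zero]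

theorem rho_C (S : Finset (Fin n)) (r : K) :
    rho S (MvPowerSeries.C r : MvPowerSeries (Fin n) K) = MvPowerSeries.C r := by
  have h := rho_smul S r (1 : MvPowerSeries (Fin n) K)
  rwa [MvPowerSeries.smul_eq_C_mul, mul_one, map_one, MvPowerSeries.smul_eq_C_mul, mul_one] at h

theorem rho_coe (S : Finset (Fin n)) (p : MvPolynomial (Fin n) K) :
    rho S (p : MvPowerSeries (Fin n) K) = (rhoP S p : MvPolynomial (Fin n) K) := by
  have : (rho S).comp (coeToMvPowerSeries.ringHom (R := K)) =
      (coeToMvPowerSeries.ringHom (R := K)).comp (rhoP S) := by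
    apply MvPolynomial.ringHom_ext
    · intro r
      simp [rhoP, rho_C]
    · intro i
      simp only [rhoP, RingHom.comp_apply, eval₂Hom_X', coeToMvPowerSeries.ringHom_apply, coe_X,
        rho_X]
      split_ifs <;> simp
  exact RingHom.congr_fun this p

theorem rhoP_shift (a : Fin n → K) {U : Finset (Fin n)} {p : MvPolynomial (Fin n) K}
    (h : p.vars ⊆ U) : rhoP U (shift a p) = shift a p := by
  apply MvPolynomial.hom_congr_vars (f₁ := (rhoP U).comp (shift a)) (f₂ := shift a) _ _ rfl
  · ext r; simp [rhoP, shift]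
  · intro i hi _
    simp [rhoP, shift, h hi]

/-- restriction of a sum of products of functions of few variables to few variables near a point
where no factor vanishes -/
theorem local_point [CharZero K] {k m c : ℕ} (κ : Fin k → K)
    (g : Fin k → Fin m → MvPolynomial (Fin n) K) (e : Fin k → Fin m → ℕ)
    (hv : ∀ i j, (g i j).vars.card ≤ c) (a : Fin n → K) (ha : ∀ i j, eval a (g i j) ≠ 0)
    (hf : (∑ i, C (κ i) * ∏ j, g i j ^ e i j) ≠ 0) :
    ∃ S : Finset (Fin n), S.card ≤ c * (k * (k - 1) / 2) ∧ ∃ x : Fin n → K,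
      (∀ v, v ∉ S → x v = a v) ∧ eval x (∑ i, C (κ i) * ∏ j, g i j ^ e i j) ≠ 0 := by
  classical
  set f := ∑ i, C (κ i) * ∏ j, g i j ^ e i j with hfdef
  let T : Fin k → MvPowerSeries (Fin n) K := fun i =>
    ((shift a (∏ j, g i j ^ e i j) : MvPolynomial (Fin n) K) : MvPowerSeries (Fin n) K)
  have hT : ∀ i, T i = ∏ j, ((shift a (g i j) : MvPolynomial (Fin n) K) :
      MvPowerSeries (Fin n) K) ^ e i j := by
    intro i
    simp only [T, map_prod, map_pow, ← coeToMvPowerSeries.ringHom_apply]
  have hc : ∀ p : MvPolynomial (Fin n) K, MvPowerSeries.constantCoeff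
      ((shift a p : MvPolynomial (Fin n) K) : MvPowerSeries (Fin n) K) = eval a p := by
    intro p
    rw [← MvPowerSeries.coeff_zero_eq_constantCoeff_apply, MvPolynomial.coeff_coe,
      ← constantCoeff_eq, ← MvPolynomial.eval_zero, eval_shift]
    simp
  have hlog : ∀ i, LogLocal c (T i) := by
    intro i
    rw [hT]
    refine LogLocal.prod _ _ fun j _ => LogLocal.pow ?_ _
    refine LogLocal.of_rho (hv i j) ?_ ?_
    · rw [rho_coe, rhoP_shift a (Finset.Subset.refl _)]
    · rw [hc]; exact ha i j
  have h0 : ∀ i, MvPowerSeries.constantCoeff (T i) ≠ 0 := by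
    intro i
    simp only [T]
    rw [hc, map_prod, Finset.prod_ne_zero_iff]
    intro j _
    rw [map_pow]
    exact pow_ne_zero _ (ha i j)
  have hfT : ((shift a f : MvPolynomial (Fin n) K) : MvPowerSeries (Fin n) K) = ∑ i, κ i • T i := by
    rw [hfdef, map_sum, ← coeToMvPowerSeries.ringHom_apply, map_sum]
    apply Finset.sum_congr rfl
    intro i _
    rw [map_mul, map_mul, MvPowerSeries.smul_eq_C_mul]
    congr 1
    simp [shift]
  have hf0 : ((shift a f : MvPolynomial (Fin n) K) : MvPowerSeries (Fin n) K) ≠ 0 := by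
    intro hz
    apply hf
    apply MvPolynomial.funext
    intro y
    have h1 : shift a f = 0 := by
      apply MvPolynomial.coe_injective
      rw [hz]; simp
    have h2 := eval_shift a (fun v => y v - a v) f
    rw [h1] at h2
    simpa using h2.symm
  -- choose a basis of the span
  obtain ⟨ι, b, hb, hspan, hli⟩ := exists_linearIndependent' K T
  have hfin : Finite ι := Finite.of_injective b hb
  have : Fintype ι := Fintype.ofFinite ι
  have hcard : Fintype.card ι ≤ k := by
    simpa using Fintype.card_le_of_injective b hb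
  let ε : Fin (Fintype.card ι) ≃ ι := (Fintype.equivFin ι).symm
  have hli' : LinearIndependent K (fun i => T (b (ε i))) := hli.comp ε ε.injective
  obtain ⟨S, hS, hSli⟩ := exists_linearIndependent_rho (c := c) hli' (fun i => hlog _)
    (fun i => h0 _)
  refine ⟨S, hS.trans ?_, ?_⟩
  · apply Nat.mul_le_mul_left
    apply Nat.div_le_div_right
    exact Nat.mul_le_mul hcard (by omega)
  · -- the restriction is nonzero
    have hmem : ((shift a f : MvPolynomial (Fin n) K) : MvPowerSeries (Fin n) K) ∈
        Submodule.span K (Set.range (fun i => T (b (ε i)))) := by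
      have e1 : Set.range (fun i => T (b (ε i))) = Set.range (T ∘ b) := by
        ext y
        constructor
        · rintro ⟨i, rfl⟩; exact ⟨ε i, rfl⟩
        · rintro ⟨i, rfl⟩; exact ⟨ε.symm i, by simp⟩
      rw [e1, hspan, hfT]
      apply Submodule.sum_mem
      intro i _
      exact Submodule.smul_mem _ _ (Submodule.subset_span ⟨i, rfl⟩)
    obtain ⟨μ, hμ⟩ := (Submodule.mem_span_range_iff_exists_fun K).mp hmem
    have hne : rho S ((shift a f : MvPolynomial (Fin n) K) : MvPowerSeries (Fin n) K) ≠ 0 := by
      intro hz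
      rw [← hμ, map_sum] at hz
      simp only [rho_smul] at hz
      have hμ0 := Fintype.linearIndependent_iff.mp hSli μ hz
      apply hf0
      rw [← hμ]
      simp [hμ0]
    rw [rho_coe] at hne
    have hne' : rhoP S (shift a f) ≠ 0 := by
      intro hz; rw [hz] at hne; simp at hne
    obtain ⟨y, hy⟩ : ∃ y, eval y (rhoP S (shift a f)) ≠ 0 := by
      by_contra! h
      apply hne'
      apply MvPolynomial.funext
      intro y; rw [h y, map_zero]
    rw [eval_rhoP, eval_shift] at hy
    refine ⟨_, ?_, hy⟩
    intro v hv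
    simp [hv]

end LocalPoint

section Grid

variable {n : ℕ}

/-- restriction to a line parallel to a coordinate axis -/
noncomputable def line (x : Fin n → ℚ) (v : Fin n) : MvPolynomial (Fin n) ℚ →ₐ[ℚ] Polynomial ℚ :=
  aeval (fun u => if u = v then Polynomial.X else Polynomial.C (x u))

theorem eval_line (x : Fin n → ℚ) (v : Fin n) (z : ℚ) (p : MvPolynomial (Fin n) ℚ) :
    (line x v p).eval z = eval (Function.update x v z) p := by
  have : (Polynomial.evalRingHom z).comp (line x v).toRingHom = eval (Function.update x v z) := by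
    apply MvPolynomial.ringHom_ext
    · intro r
      simp [line]
    · intro i
      simp only [line, RingHom.comp_apply, AlgHom.toRingHom_eq_coe, RingHom.coe_coe, aeval_X,
        eval_X, Function.update_apply]
      split_ifs <;> simp
  rw [← this]; rfl

theorem natDegree_line_le (x : Fin n → ℚ) (v : Fin n) (p : MvPolynomial (Fin n) ℚ) :
    (line x v p).natDegree ≤ p.totalDegree := by
  have := aeval_natDegree_le (m := p.totalDegree) (n := 1) p le_rfl
    (fun u => if u = v then Polynomial.X else Polynomial.C (x u)) (by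
      intro i
      split_ifs
      · exact Polynomial.natDegree_X_le
      · simp)
  rw [mul_one] at this
  exact this

/-- one coordinate can be moved into a small grid -/
theorem move_one {k m L : ℕ} (κ : Fin k → ℚ) (g : Fin k → Fin m → MvPolynomial (Fin n) ℚ)
    (e : Fin k → Fin m → ℕ) (hL : ∑ i, ∑ j, (g i j).totalDegree ≤ L) (x : Fin n → ℚ) (v : Fin n)
    (hx : eval x (∑ i, C (κ i) * ∏ j, g i j ^ e i j) ≠ 0) :
    ∃ z ∈ Finset.range (2 ^ (k + 1) * L + k + 1),
      eval (Function.update x v (z : ℚ)) (∑ i, C (κ i) * ∏ j, g i j ^ e i j) ≠ 0 := by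
  have e1 : line x v (∑ i, C (κ i) * ∏ j, g i j ^ e i j) =
      ∑ i, Polynomial.C (κ i) * ∏ j, (line x v (g i j)) ^ e i j := by
    rw [map_sum]
    apply Finset.sum_congr rfl
    intro i _
    rw [map_mul, map_prod]
    congr 1
    · simp [line]
    · apply Finset.prod_congr rfl
      intro j _
      rw [map_pow]
  have h0 : (∑ i, Polynomial.C (κ i) * ∏ j, (line x v (g i j)) ^ e i j) ≠ 0 := by
    rw [← e1]
    intro hz
    apply hx
    have := eval_line x v (x v) (∑ i, C (κ i) * ∏ j, g i j ^ e i j)
    rw [hz, Function.update_eq_self] at this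
    simpa using this.symm
  obtain ⟨z, hz, hz'⟩ := exists_nat_ne_zero (L := L) κ (fun i j => line x v (g i j)) e
    (le_trans (Finset.sum_le_sum fun i _ => Finset.sum_le_sum fun j _ =>
      natDegree_line_le x v (g i j)) hL) h0
  refine ⟨z, hz, ?_⟩
  rw [← e1, eval_line] at hz'
  exact hz'

theorem move_all {k m L : ℕ} (κ : Fin k → ℚ) (g : Fin k → Fin m → MvPolynomial (Fin n) ℚ)
    (e : Fin k → Fin m → ℕ) (hL : ∑ i, ∑ j, (g i j).totalDegree ≤ L) (S : Finset (Fin n))
    (x : Fin n → ℚ) (hx : eval x (∑ i, C (κ i) * ∏ j, g i j ^ e i j) ≠ 0) :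
    ∃ x' : Fin n → ℚ, (∀ v, v ∉ S → x' v = x v) ∧
      (∀ v ∈ S, ∃ z ∈ Finset.range (2 ^ (k + 1) * L + k + 1), x' v = (z : ℚ)) ∧
      eval x' (∑ i, C (κ i) * ∏ j, g i j ^ e i j) ≠ 0 := by
  classical
  induction S using Finset.induction_on with
  | empty => exact ⟨x, fun _ _ => rfl, by simp, hx⟩
  | insert v S hv ih =>
    obtain ⟨x', h1, h2, h3⟩ := ih
    obtain ⟨z, hz, hz'⟩ := move_one κ g e hL x' v h3
    refine ⟨Function.update x' v (z : ℚ), ?_, ?_, hz'⟩
    · intro u hu
      rw [Finset.mem_insert, not_or] at hu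
      rw [Function.update_of_ne hu.1]
      exact h1 u hu.2
    · intro u hu
      by_cases huv : u = v
      · subst huv
        exact ⟨z, hz, by simp⟩
      · rw [Function.update_of_ne huv]
        rw [Finset.mem_insert] at hu
        exact h2 u (hu.resolve_left huv)

end Grid

section Base

variable {n : ℕ}

/-- the base curve -/
noncomputable def crv {c : ℕ} (y : Fin c → ℚ) : Fin n → ℚ :=
  fun v => ∑ i, y i * ((v : ℚ) + 1) ^ (i : ℕ)

theorem exists_crv {c : ℕ} (p : MvPolynomial (Fin n) ℚ) (hp : p ≠ 0) (hv : p.vars.card ≤ c) :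
    ∃ y : Fin c → ℚ, eval (crv y) p ≠ 0 := by
  classical
  obtain ⟨x, hx⟩ : ∃ x, eval x p ≠ 0 := by
    by_contra! h
    apply hp
    apply MvPolynomial.funext
    intro y; rw [h y, map_zero]
  have hinj : Set.InjOn (fun v : Fin n => (v : ℚ) + 1) p.vars := by
    intro a _ b _ hab
    simp only [add_left_inj, Nat.cast_inj] at hab
    exact Fin.ext hab
  let q := Lagrange.interpolate p.vars (fun v : Fin n => (v : ℚ) + 1) x
  refine ⟨fun i => q.coeff i, ?_⟩
  have hval : ∀ v ∈ p.vars, crv (fun i : Fin c => q.coeff i) v = x v := by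
    intro v hv'
    have h1 : q.eval ((v : ℚ) + 1) = x v := Lagrange.eval_interpolate_at_node x hinj hv'
    have h2 : q.degree < (p.vars.card : ℕ) := Lagrange.degree_interpolate_lt x hinj
    have h3 : q.natDegree < c := by
      have hpos : 0 < p.vars.card := Finset.card_pos.mpr ⟨v, hv'⟩
      by_cases hq : q = 0
      · rw [hq, Polynomial.natDegree_zero]; omega
      · have := (Polynomial.natDegree_lt_iff_degree_lt hq).mpr h2
        omega
    rw [Polynomial.eval_eq_sum_range' h3, ← Fin.sum_univ_eq_sum_range
      (fun i => q.coeff i * ((v : ℚ) + 1) ^ i) c] at h1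
    exact h1
  have : eval (crv (fun i : Fin c => q.coeff i)) p = eval x p := by
    apply MvPolynomial.hom_congr_vars _ _ rfl
    · ext; simp
    · intro i hi _
      simp [hval i hi]
  rw [this]
  exact hx

/-- composition with the base curve -/
noncomputable def crvP (c : ℕ) : MvPolynomial (Fin n) ℚ →ₐ[ℚ] MvPolynomial (Fin c) ℚ :=
  aeval (fun v => ∑ i : Fin c, C (((v : ℚ) + 1) ^ (i : ℕ)) * X i)

theorem eval_crvP {c : ℕ} (y : Fin c → ℚ) (p : MvPolynomial (Fin n) ℚ) :
    eval y (crvP c p) = eval (crv y) p := by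
  have : (eval y).comp (crvP c).toRingHom = eval (crv (n := n) y) := by
    apply MvPolynomial.ringHom_ext
    · intro r
      simp [crvP]
    · intro i
      simp only [crvP, RingHom.comp_apply, AlgHom.toRingHom_eq_coe, RingHom.coe_coe, aeval_X,
        eval_X, map_sum, map_mul, eval_C, crv]
      exact Finset.sum_congr rfl fun i _ => mul_comm _ _
  rw [← this]; rfl

theorem totalDegree_crvP {c : ℕ} (p : MvPolynomial (Fin n) ℚ) :
    (crvP c p).totalDegree ≤ p.totalDegree := by
  rw [crvP, aeval_def, eval₂_eq]
  apply totalDegree_finsetSum_le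
  intro d hd
  refine (totalDegree_mul _ _).trans ?_
  rw [algebraMap_eq, totalDegree_C, zero_add]
  refine (totalDegree_finsetProd _ _).trans ?_
  calc ∑ i ∈ d.support, ((∑ j : Fin c, C (((i : ℚ) + 1) ^ (j : ℕ)) * X j :
        MvPolynomial (Fin c) ℚ) ^ d i).totalDegree ≤ ∑ i ∈ d.support, d i := by
        apply Finset.sum_le_sum
        intro i _
        refine (totalDegree_pow _ _).trans ?_
        have : (∑ j : Fin c, C (((i : ℚ) + 1) ^ (j : ℕ)) * X j :
            MvPolynomial (Fin c) ℚ).totalDegree ≤ 1 := by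
          apply totalDegree_finsetSum_le
          intro j _
          refine (totalDegree_mul _ _).trans ?_
          rw [totalDegree_C, zero_add]
          exact (totalDegree_X _).le
        calc _ ≤ d i * 1 := Nat.mul_le_mul_left _ this
          _ = d i := mul_one _
    _ ≤ p.totalDegree := le_totalDegree hd

theorem exists_base {k m c L : ℕ} (g : Fin k → Fin m → MvPolynomial (Fin n) ℚ)
    (hg : ∀ i j, g i j ≠ 0) (hv : ∀ i j, (g i j).vars.card ≤ c)
    (hL : ∑ i, ∑ j, (g i j).totalDegree ≤ L) :
    ∃ y : Fin c → ℕ, (∀ i, y i ∈ Finset.range (L + 1)) ∧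
      ∀ i j, eval (crv (fun l => (y l : ℚ))) (g i j) ≠ 0 := by
  classical
  set P : MvPolynomial (Fin c) ℚ := ∏ i, ∏ j, crvP c (g i j) with hP
  have hP0 : P ≠ 0 := by
    rw [hP, Finset.prod_ne_zero_iff]
    intro i _
    rw [Finset.prod_ne_zero_iff]
    intro j _ hz
    obtain ⟨y, hy⟩ := exists_crv (g i j) (hg i j) (hv i j)
    rw [← eval_crvP, hz, map_zero] at hy
    exact hy rfl
  have hPd : P.totalDegree ≤ L := by
    refine le_trans ?_ hL
    rw [hP]
    refine (totalDegree_finsetProd _ _).trans (Finset.sum_le_sum fun i _ => ?_)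
    refine (totalDegree_finsetProd _ _).trans (Finset.sum_le_sum fun j _ => ?_)
    exact totalDegree_crvP _
  by_contra! H
  apply hP0
  apply MvPolynomial.eq_zero_of_eval_zero_at_prod_finset P
    (fun _ => (Finset.range (L + 1)).image (fun z : ℕ => (z : ℚ)))
  · intro i
    rw [Finset.card_image_of_injective _ Nat.cast_injective, Finset.card_range]
    exact Nat.lt_succ_of_le ((degreeOf_le_totalDegree _ _).trans hPd)
  · intro x hx
    have hx' : ∀ i, ∃ z ∈ Finset.range (L + 1), (z : ℚ) = x i := by
      intro i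
      simpa using hx i
    choose y hy hyx using hx'
    obtain ⟨i, j, hij⟩ := H y hy
    have hxy : (fun l => (y l : ℚ)) = x := funext hyx
    rw [hxy] at hij
    rw [hP, map_prod]
    apply Finset.prod_eq_zero (Finset.mem_univ i)
    rw [map_prod]
    apply Finset.prod_eq_zero (Finset.mem_univ j)
    rw [eval_crvP, hij]

end Base

end Pool.Agent.Helper6
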