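import Mathlib

/-!
Generalised Wronskians in the ring of formal power series in finitely many variables
over a field of characteristic zero.
-/

namespace Pool.Agent.Helper6

open MvPowerSeries

variable {K : Type*} [Field K] {n : ℕ}

/-- lowest coefficient of a product, for the lexicographic order -/
theorem coeff_mul_low {φ ψ : MvPowerSeries (Fin n) K} {q p : Fin n →₀ ℕ}
    (hφ : ∀ u, toLex u < toLex q → coeff u φ = 0)
    (hψ : ∀ u, toLex u < toLex p → coeff u ψ = 0) :
    coeff (q + p) (φ * ψ) = coeff q φ * coeff p ψ := by
  classical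
  rw [coeff_mul, Finset.sum_eq_single_of_mem ⟨q, p⟩ (by simp)]
  rintro ⟨u, v⟩ h h'
  have hh : u + v = q + p := by simpa using h
  rcases trichotomy_of_add_eq_add (congrArg toLex hh) with h'' | h'' | h''
  · exact False.elim (h' (Prod.ext (toLex.injective h''.1) (toLex.injective h''.2)))
  · rw [hφ u h'', zero_mul]
  · rw [hψ v h'', mul_zero]

theorem coeff_X_mul_pderiv (v : Fin n) (f : MvPowerSeries (Fin n) K) (d : Fin n →₀ ℕ) :
    coeff d (X v * pderiv K v f) = (d v : K) * coeff d f := by
  classical
  by_cases h : d v = 0
  · rw [X_def, coeff_monomial_mul, if_neg, h]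
    · simp
    · intro hle
      have := hle v
      simp [h] at this
  · have hle : Finsupp.single v 1 ≤ d := by
      intro j
      by_cases hj : j = v
      · subst hj; simp; omega
      · simp [Finsupp.single_eq_of_ne hj]
    rw [X_def, coeff_monomial_mul, if_pos hle, coeff_pderiv, one_mul, tsub_add_cancel_of_le hle]
    have h1 : (((d - Finsupp.single v 1 : Fin n →₀ ℕ) v : ℕ) : K) + 1 = (d v : K) := by
      have : (d - Finsupp.single v 1 : Fin n →₀ ℕ) v = d v - 1 := by simp
      rw [this]
      have h2 : 1 ≤ d v := Nat.one_le_iff_ne_zero.mpr h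
      push_cast [Nat.cast_sub h2]
      ring
    rw [h1, mul_comm]

/-- a quotient of two power series all whose partial derivatives vanish is a constant -/
theorem const_ratio [CharZero K] {a b : MvPowerSeries (Fin n) K} (hb : b ≠ 0)
    (h : ∀ v, b * pderiv K v a = a * pderiv K v b) : ∃ κ : K, a = C κ * b := by
  classical
  obtain ⟨q, hq⟩ := exists_finsupp_eq_lexOrder_of_ne_zero hb
  have hbq : coeff q b ≠ 0 := coeff_ne_zero_of_lexOrder hq.symm
  have hbl : ∀ u, toLex u < toLex q → coeff u b = 0 := by
    intro u hu
    apply coeff_eq_zero_of_lt_lexOrder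
    rw [hq]
    exact_mod_cast hu
  refine ⟨coeff q a / coeff q b, ?_⟩
  set κ := coeff q a / coeff q b with hκ
  by_contra hne
  set a' := a - C κ * b with ha'
  have ha'0 : a' ≠ 0 := by
    intro h0
    exact hne (sub_eq_zero.mp h0)
  have hrel : ∀ v, b * pderiv K v a' = a' * pderiv K v b := by
    intro v
    have h1 : pderiv K v (C κ * b) = C κ * pderiv K v b := by
      rw [← smul_eq_C_mul, ← smul_eq_C_mul, (pderiv K v).map_smul]
    rw [ha', map_sub, h1, mul_sub, sub_mul, h v]
    ring
  obtain ⟨p, hp⟩ := exists_finsupp_eq_lexOrder_of_ne_zero ha'0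
  have hap : coeff p a' ≠ 0 := coeff_ne_zero_of_lexOrder hp.symm
  have hal : ∀ u, toLex u < toLex p → coeff u a' = 0 := by
    intro u hu
    apply coeff_eq_zero_of_lt_lexOrder
    rw [hp]
    exact_mod_cast hu
  have hpq : p = q := by
    ext v
    have e1 : coeff (q + p) (b * (X v * pderiv K v a')) = coeff q b * ((p v : K) * coeff p a') := by
      rw [coeff_mul_low hbl, coeff_X_mul_pderiv]
      intro u hu
      rw [coeff_X_mul_pderiv, hal u hu, mul_zero]
    have e2 : coeff (q + p) ((X v * pderiv K v b) * a') = ((q v : K) * coeff q b) * coeff p a' := by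
      rw [coeff_mul_low _ hal, coeff_X_mul_pderiv]
      intro u hu
      rw [coeff_X_mul_pderiv, hbl u hu, mul_zero]
    have e3 : b * (X v * pderiv K v a') = (X v * pderiv K v b) * a' := by
      have := hrel v
      calc b * (X v * pderiv K v a') = X v * (b * pderiv K v a') := by ring
        _ = X v * (a' * pderiv K v b) := by rw [this]
        _ = _ := by ring
    rw [e3, e2] at e1
    have e4 : (q v : K) = (p v : K) := by
      have h5 : coeff q b * coeff p a' ≠ 0 := mul_ne_zero hbq hap
      have h6 : ((q v : K) - p v) * (coeff q b * coeff p a') = 0 := by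
        linear_combination e1
      rcases mul_eq_zero.mp h6 with h7 | h7
      · exact sub_eq_zero.mp h7
      · exact absurd h7 h5
    exact_mod_cast e4.symm
  apply hap
  rw [hpq, ha', map_sub, coeff_C_mul, hκ]
  field_simp
  ring

/-- iterated partial derivative along a word -/
noncomputable def Dw (w : List (Fin n)) (f : MvPowerSeries (Fin n) K) : MvPowerSeries (Fin n) K :=
  w.foldr (fun v g => pderiv K v g) f

@[simp] theorem Dw_nil (f : MvPowerSeries (Fin n) K) : Dw [] f = f := rfl

@[simp] theorem Dw_cons (v : Fin n) (w : List (Fin n)) (f : MvPowerSeries (Fin n) K) :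
    Dw (v :: w) f = pderiv K v (Dw w f) := rfl

theorem Dw_sum_smul {ι : Type*} (s : Finset ι) (w : List (Fin n)) (c : ι → K)
    (f : ι → MvPowerSeries (Fin n) K) :
    Dw w (∑ i ∈ s, c i • f i) = ∑ i ∈ s, c i • Dw w (f i) := by
  induction w with
  | nil => rfl
  | cons v w ih => simp [ih, map_sum]

theorem exists_next [CharZero K] {r m : ℕ} (hm : m < r) {T : Fin r → MvPowerSeries (Fin n) K}
    (hT : LinearIndependent K T) (w : Fin m → List (Fin n)) (hw : ∀ j, (w j).length ≤ j)
    (hli : LinearIndependent (MvPowerSeries (Fin n) K)
      (fun j : Fin m => fun i : Fin r => Dw (w j) (T i))) :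
    ∃ u : List (Fin n), u.length ≤ m ∧ LinearIndependent (MvPowerSeries (Fin n) K)
      (fun j : Fin (m+1) => fun i : Fin r => Dw ((Fin.snoc w u : Fin (m+1) → List (Fin n)) j) (T i)) := by
  classical
  by_contra! H
  -- every word of length `≤ m` is dependent on the given ones
  have Hu : ∀ u : List (Fin n), u.length ≤ m → ∃ a : MvPowerSeries (Fin n) K, a ≠ 0 ∧
      ∃ b : Fin m → MvPowerSeries (Fin n) K, ∀ i, a * Dw u (T i) = ∑ j, b j * Dw (w j) (T i) := by
    intro u hu
    have h1 := H u hu
    rw [Fintype.not_linearIndependent_iff] at h1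
    obtain ⟨g, hg, j0, hj0⟩ := h1
    have hg' : ∀ i : Fin r, ∑ j : Fin m, g j.castSucc * Dw (w j) (T i)
        + g (Fin.last m) * Dw u (T i) = 0 := by
      intro i
      have := congrFun hg i
      rw [Fin.sum_univ_castSucc] at this
      simpa using this
    refine ⟨g (Fin.last m), ?_, fun j => - g j.castSucc, ?_⟩
    · intro h0
      have hall : ∀ j : Fin m, g j.castSucc = 0 := by
        have := Fintype.linearIndependent_iff.mp hli (fun j => g j.castSucc) (by
          ext1 i
          have := hg' i
          rw [h0, zero_mul, add_zero] at this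
          simpa using this)
        exact this
      apply hj0
      induction j0 using Fin.lastCases with
      | last => exact h0
      | cast j => exact hall j
    · intro i
      have := hg' i
      simp only [neg_mul, Finset.sum_neg_distrib]
      linear_combination this
  -- the orthogonal complement
  let Cs : (Fin r → MvPowerSeries (Fin n) K) → Prop := fun c =>
    ∀ j : Fin m, ∑ i, c i * Dw (w j) (T i) = 0
  have Cu : ∀ c, Cs c → ∀ u : List (Fin n), u.length ≤ m → ∑ i, c i * Dw u (T i) = 0 := by
    intro c hc u hu
    obtain ⟨a, ha, b, hb⟩ := Hu u hu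
    have : a * ∑ i, c i * Dw u (T i) = 0 := by
      calc a * ∑ i, c i * Dw u (T i) = ∑ i, c i * (a * Dw u (T i)) := by
            rw [Finset.mul_sum]; apply Finset.sum_congr rfl; intros; ring
        _ = ∑ i, c i * ∑ j, b j * Dw (w j) (T i) := by simp_rw [hb]
        _ = ∑ j, b j * ∑ i, c i * Dw (w j) (T i) := by
            simp_rw [Finset.mul_sum]
            rw [Finset.sum_comm]
            apply Finset.sum_congr rfl; intro j _
            apply Finset.sum_congr rfl; intro i _
            ring
        _ = 0 := by simp [hc _]
    exact (mul_eq_zero.mp this).resolve_left ha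
  have CD : ∀ c, Cs c → ∀ v : Fin n, Cs (fun i => pderiv K v (c i)) := by
    intro c hc v j
    have h1 := congrArg (pderiv K v) (hc j)
    rw [map_sum, map_zero] at h1
    have h2 : ∑ i, c i * Dw (v :: w j) (T i) = 0 :=
      Cu c hc _ (by have := hw j; have := j.2; simp only [List.length_cons]; omega)
    simp only [Dw_cons] at h2
    simp only [Derivation.leibniz, smul_eq_mul, Finset.sum_add_distrib, h2, zero_add] at h1
    rw [← h1]
    apply Finset.sum_congr rfl; intros; ring
  have key : ∀ N : ℕ, ∀ c, Cs c → c ≠ 0 → (Finset.univ.filter fun i => c i ≠ 0).card = N → False := by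
    intro N
    induction N using Nat.strong_induction_on with
    | _ N ih =>
      intro c hc hc0 hN
      obtain ⟨i0, hi0⟩ : ∃ i0, c i0 ≠ 0 := by
        by_contra! h; exact hc0 (funext h)
      by_cases hex : ∃ v : Fin n, (fun i => c i0 * pderiv K v (c i) - pderiv K v (c i0) * c i) ≠ 0
      · obtain ⟨v, hv⟩ := hex
        refine ih _ ?_ _ ?_ hv rfl
        · rw [← hN]
          apply Finset.card_lt_card
          rw [Finset.ssubset_iff_of_subset]
          · refine ⟨i0, by simp [hi0], ?_⟩
            simp [mul_comm]
          · intro i hi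
            simp only [Finset.mem_filter, Finset.mem_univ, true_and] at hi ⊢
            intro h0
            apply hi
            rw [h0]; simp
        · intro j
          have h1 := CD c hc v j
          have h2 := hc j
          calc ∑ i, (c i0 * pderiv K v (c i) - pderiv K v (c i0) * c i) * Dw (w j) (T i)
              = c i0 * ∑ i, pderiv K v (c i) * Dw (w j) (T i)
                - pderiv K v (c i0) * ∑ i, c i * Dw (w j) (T i) := by
                rw [Finset.mul_sum, Finset.mul_sum, ← Finset.sum_sub_distrib]
                apply Finset.sum_congr rfl; intros; ring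
            _ = 0 := by rw [h1, h2]; ring
      · push Not at hex
        have hconst : ∀ i, ∃ κ : K, c i = C κ * c i0 := by
          intro i
          apply const_ratio hi0
          intro v
          have := congrFun (hex v) i
          simp only [Pi.zero_apply] at this
          linear_combination this
        choose κ hκ using hconst
        have hz := Cu c hc [] (by simp)
        simp only [Dw_nil] at hz
        have hz' : c i0 * ∑ i, κ i • T i = 0 := by
          rw [← hz, Finset.mul_sum]
          apply Finset.sum_congr rfl
          intro i _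
          rw [hκ i, smul_eq_C_mul]; ring
        have hz'' := (mul_eq_zero.mp hz').resolve_left hi0
        have hk0 := Fintype.linearIndependent_iff.mp hT κ hz'' i0
        have : c i0 = 0 := by rw [hκ i0, hk0]; simp
        exact hi0 this
  -- existence of a nonzero element
  obtain ⟨c, hc, hc0⟩ : ∃ c, Cs c ∧ c ≠ 0 := by
    let f : (Fin r → MvPowerSeries (Fin n) K) →ₗ[MvPowerSeries (Fin n) K]
        (Fin m → MvPowerSeries (Fin n) K) :=
      { toFun := fun c j => ∑ i, c i * Dw (w j) (T i)
        map_add' := by
          intro x y; ext1 j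
          simp [add_mul, Finset.sum_add_distrib]
        map_smul' := by
          intro a x; ext1 j
          simp [Finset.mul_sum, mul_assoc] }
    have hni : ¬ Function.Injective f := by
      intro hinj
      have := card_le_of_injective (R := MvPowerSeries (Fin n) K) f hinj
      simp at this
      omega
    rw [← LinearMap.ker_eq_bot] at hni
    obtain ⟨c, hc, hc0⟩ := Submodule.exists_mem_ne_zero_of_ne_bot hni
    refine ⟨c, ?_, hc0⟩
    intro j
    exact congrFun (LinearMap.mem_ker.mp hc) j
  exact key _ c hc hc0 rfl

theorem exists_words_aux [CharZero K] {r : ℕ} {T : Fin r → MvPowerSeries (Fin n) K}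
    (hT : LinearIndependent K T) (m : ℕ) (hm : m ≤ r) :
    ∃ w : Fin m → List (Fin n), (∀ j, (w j).length ≤ j) ∧
      LinearIndependent (MvPowerSeries (Fin n) K)
        (fun j : Fin m => fun i : Fin r => Dw (w j) (T i)) := by
  induction m with
  | zero => exact ⟨fun j => j.elim0, fun j => j.elim0, linearIndependent_empty_type⟩
  | succ m ih =>
    obtain ⟨w, hw, hli⟩ := ih (by omega)
    obtain ⟨u, hu, hli'⟩ := exists_next (by omega) hT w hw hli
    refine ⟨Fin.snoc w u, ?_, hli'⟩
    intro j
    induction j using Fin.lastCases with
    | last => simpa using hu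
    | cast j => simpa using hw j

/-- **Generalised Wronskian.** Power series that are linearly independent over the constants
have a nonvanishing generalised Wronskian whose `j`-th row has order at most `j`. -/
theorem exists_words [CharZero K] {r : ℕ} {T : Fin r → MvPowerSeries (Fin n) K}
    (hT : LinearIndependent K T) :
    ∃ w : Fin r → List (Fin n), (∀ j, (w j).length ≤ j) ∧
      (Matrix.of fun j i => Dw (w j) (T i)).det ≠ 0 := by
  obtain ⟨w, hw, hli⟩ := exists_words_aux hT r le_rfl
  refine ⟨w, hw, ?_⟩
  intro hdet
  have : IsDomain (MvPowerSeries (Fin n) K) := NoZeroDivisors.to_isDomain _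
  obtain ⟨v, hv, hv0⟩ := Matrix.exists_vecMul_eq_zero_iff.mpr hdet
  apply hv
  have := Fintype.linearIndependent_iff.mp hli v (by
    ext1 i
    have := congrFun hv0 i
    simpa [Matrix.vecMul, dotProduct] using this)
  exact funext this

end Pool.Agent.Helper6
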